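import Pool.Agent.Y803.NW.Main

/-!
# MP_b96d2b_ag: the moduli spaces `G(α; 2, K, k)` for `g < (⌊k/2⌋ + 1)²` and for `g < (⌊k/2⌋ + 1)(⌊k/2⌋ + 2)`

Let `C` be a Brill-Noether general curve of genus `g ≥ 2`, let `m = ⌊k/2⌋ + 1`.

* If `g < m²` then `G(α; 2, K, k)` consists, for every `α > 0`, of the `(E, V)` with `E` stable, so it is
  empty if and only if `B(2, K, k)` is. This range contains all `k` with `β(2, K, k) < 0`, where
  `B(2, K, k)` is empty for the general curve by the theorem of Teixidor (Q1).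
* If `g < m (m + 1)` then for every `α > 0` every `(E, V)` with `E` stable is `α`-stable, and `E` is
  semistable for every `α`-stable `(E, V)`. So `U(2, K, k)` consists of all `(E, V)` with `E` stable, and it
  is not empty if and only if `B(2, K, k)` is not (Q2).

The starting result `NoWallsCanonical` is the first equality for `4 g < (k + 1)²`. The curve is given by its
function field, vector bundles by local frames, see `Pool/Agent/Helper395/CS/Defs.lean` and
`Pool/Agent/Helper395/BC/Defs.lean`; `IsCanonical` and `IsBrillNoetherGeneral` are defined in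
`Pool/Agent/W525/BNK.lean`.
-/

namespace Pool.Agent.Results.MP_b96d2b_ag.TwoThresholds

open Pool.Agent.Helper395.CS hiding genus
open Pool.Agent.Helper395.BC
open Pool.Agent.W525.BNK
open Pool.Agent.Y803.NW

/-- coherent systems of type `(2, 2 g - 2, k)` -/
abbrev Sys (K : Type) [Field K] [Algebra ℂ K] (k : ℕ) : Type :=
  CoherentSystem K 2 (2 * (genus K : ℤ) - 2) k

/-- `B(2, K, k)`: stable bundles of rank two with canonical determinant and `h⁰(E) ≥ k` -/
def B (K : Type) [Field K] [Algebra ℂ K] (k : ℕ) : Set (Bundle K 2) :=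
  {E | IsCanonical E.det ∧ IsStable E ∧ k ≤ Module.finrank ℂ E.sections}

/-- `G(α; 2, K, k)`: the `α`-stable systems with canonical determinant -/
def G (K : Type) [Field K] [Algebra ℂ K] (α : ℝ) (k : ℕ) : Set (Sys K k) :=
  {S | IsCanonical S.bundle.det ∧ S.IsStable α}

/-- the systems `(E, V)` with canonical determinant and `E` stable -/
def StableSys (K : Type) [Field K] [Algebra ℂ K] (k : ℕ) : Set (Sys K k) :=
  {S | IsCanonical S.bundle.det ∧ IsStable S.bundle}

/-- the systems `(E, V)` with canonical determinant and `E` semistable -/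
def SemistableSys (K : Type) [Field K] [Algebra ℂ K] (k : ℕ) : Set (Sys K k) :=
  {S | IsCanonical S.bundle.det ∧ IsSemistable S.bundle}

/-- `U(2, K, k)`: the systems with canonical determinant and `E` stable which are `α`-stable for all
large `α` -/
def U (K : Type) [Field K] [Algebra ℂ K] (k : ℕ) : Set (Sys K k) :=
  {S | IsCanonical S.bundle.det ∧ IsStable S.bundle ∧ ∀ᶠ α : ℝ in Filter.atTop, S.IsStable α}

theorem range_le {g k : ℕ} (hg : 2 ≤ g) (h : 3 * (g : ℤ) - 3 - k * (k + 1) / 2 < 0) :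
    g < (k / 2 + 1) ^ 2 := by
  have h1 : 6 * g < k * (k + 1) + 6 := by
    have h2 : (2 : ℤ) * (k * (k + 1) / 2) ≤ k * (k + 1) := Int.mul_ediv_self_le (by norm_num)
    have h3 : (6 * g : ℤ) < k * (k + 1) + 6 := by linarith
    exact_mod_cast h3
  obtain ⟨m, rfl | rfl⟩ : ∃ m, k = 2 * m ∨ k = 2 * m + 1 := ⟨k / 2, by omega⟩
  · have e : 2 * m / 2 = m := by omega
    rw [e]
    nlinarith
  · have e : (2 * m + 1) / 2 = m := by omega
    rw [e]
    rcases Nat.eq_zero_or_pos m with rfl | hm
    · omega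
    · nlinarith

theorem nonempty_iff {K : Type} [Field K] [Algebra ℂ K] (k : ℕ) (hK : IsCurve K) (hg : 2 ≤ genus K) :
    (StableSys K k).Nonempty ↔ (B K k).Nonempty := by
  constructor
  · rintro ⟨S, h1, h2⟩
    have hfin : FiniteDimensional ℂ S.bundle.sections := (rr hK (by omega) S.bundle).1
    exact ⟨S.bundle, h1, h2, S.finrank_eq.symm.trans_le (Submodule.finrank_mono S.le_sections)⟩
  · rintro ⟨E, h1, h2, h3⟩
    obtain ⟨V, hV, hVk⟩ := exists_space E h3
    exact ⟨⟨E, V, hV, h1.1, hVk⟩, h1, h2⟩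

theorem result (K : Type) [Field K] [Algebra ℂ K] (hK : IsCurve K) (hg : 2 ≤ genus K)
    (hBN : IsBrillNoetherGeneral K) (k : ℕ) :
    (3 * (genus K : ℤ) - 3 - k * (k + 1) / 2 < 0 → genus K < (k / 2 + 1) ^ 2) ∧
    (genus K < (k / 2 + 1) ^ 2 → ∀ α : ℝ, 0 < α →
      G K α k = StableSys K k ∧ ((G K α k).Nonempty ↔ (B K k).Nonempty)) ∧
    (genus K < (k / 2 + 1) * (k / 2 + 2) →
      (∀ α : ℝ, 0 < α → StableSys K k ⊆ G K α k ∧ G K α k ⊆ SemistableSys K k) ∧
      U K k = StableSys K k ∧ ((U K k).Nonempty ↔ (B K k).Nonempty)) := by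
  refine ⟨range_le hg, fun hk α hα => ?_, fun hk => ?_⟩
  · have h0 : genus K < (k / 2 + 1) * (k / 2 + 2) := by
      refine hk.trans_le ?_
      rw [pow_two]
      exact Nat.mul_le_mul_left _ (by omega)
    have h1 : G K α k = StableSys K k := by
      ext S
      exact ⟨fun h => ⟨h.1, stable_of hK hg hBN hk hα S h.1 h.2⟩,
        fun h => ⟨h.1, alpha_of hK hg hBN h0 hα S h.2⟩⟩
    exact ⟨h1, by rw [h1]; exact nonempty_iff k hK hg⟩
  · have h1 : U K k = StableSys K k := by
      ext S
      refine ⟨fun h => ⟨h.1, h.2.1⟩, fun h => ⟨h.1, h.2, ?_⟩⟩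
      filter_upwards [Filter.eventually_gt_atTop 0] with α hα
      exact alpha_of hK hg hBN hk hα S h.2
    refine ⟨fun α hα => ⟨fun S h => ⟨h.1, alpha_of hK hg hBN hk hα S h.2⟩,
      fun S h => ⟨h.1, semistable_of hK hg hBN hk hα S h.1 h.2⟩⟩, h1, ?_⟩
    rw [h1]
    exact nonempty_iff k hK hg

end Pool.Agent.Results.MP_b96d2b_ag.TwoThresholds
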